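import Pool.Agent.N483.KM.StmW
import Pool.Agent.R751.MB.Prd
import Pool.Agent.R751.MB.Ten
import Pool.Agent.R751.MB.Apc
import Pool.Agent.R751.MB.All
import Pool.Agent.R754.KG.G

/-!
# KM/PRW: products of weights, and cubes
-/

set_option autoImplicit false

namespace Pool.Agent.N232.KM

open MeasureTheory Set Filter Topology
open scoped ENNReal InnerProductSpace
open Pool.Agent.R754.KG (E)
open Pool.Agent.R751.MB (VW EW AP)
open Pool.Agent.R751.MB.Ten (mu mu_integral mu_prob mu_integrable W EW_W)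
open Pool.Agent.R751.MB.Prd (var_sum var_nn efron)

/-- concentration for linear images of arbitrary dimension -/
theorem fibc {N k : ℕ} {κ δ : ℝ} {w : E N → ℝ} (hc : Pool.Agent.R751.MB.CcW κ δ w)
    (T0 : E N →ₗ[ℝ] E k) (y0 : E k)
    (s : ℝ) (hs : 0 < s)
    (h : ∀ θ : E k, ‖θ‖ = 1 → VW w (fun p => ⟪T0 p, θ⟫_ℝ) ≤ s)
    (v : E k → ℝ) (hv : ContDiff ℝ 1 v) (hb : ∀ y, |v y| ≤ 1)
    (hd : ∀ y, ‖fderiv ℝ v y‖ ≤ κ / Real.sqrt s) :
    VW w (fun p => v (y0 + T0 p)) ≤ δ := by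
  obtain ⟨k', hk'⟩ : ∃ k', k' = Module.finrank ℝ (LinearMap.range T0) := ⟨_, rfl⟩
  have hle : k' ≤ N := by
    rw [hk']
    have := LinearMap.finrank_range_le T0
    simpa using this
  let ob : OrthonormalBasis (Fin k') ℝ (LinearMap.range T0) :=
    (stdOrthonormalBasis ℝ (LinearMap.range T0)).reindex (finCongr hk'.symm)
  let ι : E k' →ₗᵢ[ℝ] E k :=
    (LinearMap.range T0).subtypeₗᵢ.comp ob.repr.symm.toLinearIsometry
  let T1 : E N →ₗ[ℝ] E k' := ob.repr.toLinearEquiv.toLinearMap ∘ₗ T0.rangeRestrict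
  have hT : ∀ p, ι (T1 p) = T0 p := by
    intro p
    simp [ι, T1]
  have key := hc k' hle T1 s hs (fun θ hθ => by
    have h1 := h (ι θ) (by rw [ι.norm_map]; exact hθ)
    have e : (fun p => ⟪T1 p, θ⟫_ℝ) = fun p => ⟪T0 p, ι θ⟫_ℝ := by
      funext p
      rw [← hT p, ι.inner_map_map]
    rw [e]
    exact h1) (fun y => v (y0 + ι y)) (by
      exact hv.comp (contDiff_const.add ι.contDiff)) (fun y => hb _) (fun y => by
      have h2 : HasFDerivAt (fun y => y0 + ι y) ι.toContinuousLinearMap y :=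
        (ι.toContinuousLinearMap.hasFDerivAt).const_add y0
      have h3 : HasFDerivAt v (fderiv ℝ v (y0 + ι y)) (y0 + ι y) :=
        ((hv.differentiable one_ne_zero) _).hasFDerivAt
      have h4 := (h3.comp y h2).fderiv
      have e4 : (v ∘ fun y => y0 + ι y) = fun y => v (y0 + ι y) := rfl
      rw [e4] at h4
      rw [h4]
      refine (ContinuousLinearMap.opNorm_comp_le _ _).trans ?_
      have h5 : ‖ι.toContinuousLinearMap‖ ≤ 1 := ι.norm_toContinuousLinearMap_le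
      calc ‖fderiv ℝ v (y0 + ι y)‖ * ‖ι.toContinuousLinearMap‖
          ≤ ‖fderiv ℝ v (y0 + ι y)‖ * 1 := mul_le_mul_of_nonneg_left h5 (norm_nonneg _)
        _ ≤ _ := by rw [mul_one]; exact hd _)
  have e : (fun p => v (y0 + ι (T1 p))) = fun p => v (y0 + T0 p) := by
    funext p
    rw [hT p]
  rw [e] at key
  exact key

theorem VWm {n : ℕ} {w : E n → ℝ} (h : Pool.Agent.R751.MB.Adm w) (f : E n → ℝ) :
    VW w f = (∫ x, f x ^ 2 ∂(mu w)) - (∫ x, f x ∂(mu w)) ^ 2 := by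
  unfold VW
  rw [mu_integral h, mu_integral h]

/-- moments of linear functionals -/
theorem lin_int {n k : ℕ} {w : E n → ℝ} (h : Pool.Agent.R751.MB.Adm w) (T : E n →ₗ[ℝ] E k)
    (θ : E k) : Integrable (fun x => ⟪T x, θ⟫_ℝ) (mu w) ∧
    Integrable (fun x => ⟪T x, θ⟫_ℝ ^ 2) (mu w) := by
  obtain ⟨T', hT'⟩ : ∃ T' : E n →L[ℝ] E k, T' = LinearMap.toContinuousLinearMap T := ⟨_, rfl⟩
  have hTT : ∀ x, T x = T' x := fun x => by rw [hT']; rfl
  simp only [hTT]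
  have hb : ∀ x, |⟪T' x, θ⟫_ℝ| ≤ (‖T'‖ * ‖θ‖) * ‖x‖ := fun x => by
    calc |⟪T' x, θ⟫_ℝ| ≤ ‖T' x‖ * ‖θ‖ := abs_real_inner_le_norm _ _
      _ ≤ (‖T'‖ * ‖x‖) * ‖θ‖ :=
        mul_le_mul_of_nonneg_right (T'.le_opNorm x) (norm_nonneg _)
      _ = _ := by ring
  obtain ⟨C, hC⟩ : ∃ C : ℝ, C = ‖T'‖ * ‖θ‖ := ⟨_, rfl⟩
  rw [← hC] at hb
  have hC0 : 0 ≤ C := by rw [hC]; positivity
  have hc : Continuous fun x => ⟪T' x, θ⟫_ℝ := T'.continuous.inner continuous_const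
  constructor
  · refine mu_integrable h hc (C := C) fun x => (hb x).trans ?_
    refine mul_le_mul_of_nonneg_left ?_ hC0
    nlinarith [sq_nonneg (‖x‖ - 1), sq_nonneg (‖x‖)]
  · refine mu_integrable h (hc.pow 2) (C := C ^ 2) fun x => ?_
    rw [abs_pow]
    calc |⟪T' x, θ⟫_ℝ| ^ 2 ≤ (C * ‖x‖) ^ 2 := pow_le_pow_left₀ (abs_nonneg _) (hb x) 2
      _ = C ^ 2 * ‖x‖ ^ 2 := by ring
      _ ≤ _ := mul_le_mul_of_nonneg_left (by linarith) (sq_nonneg _)

theorem prw' (κ δ δ' : ℝ) (a b n : ℕ) (e : (E a × E b) ≃L[ℝ] E n) (w : E a → ℝ)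
    (u : E b → ℝ) (hw : Pool.Agent.R751.MB.Adm w) (hu : Pool.Agent.R751.MB.Adm u)
    (cw : Pool.Agent.R751.MB.CcW κ δ w) (cu : Pool.Agent.R751.MB.CcW κ δ' u) :
    Pool.Agent.R751.MB.CcW κ (δ + δ') (W e w u) := by
  intro k hk T s hs hT v hv hvb hd
  have pK : IsProbabilityMeasure (mu w) := mu_prob hw
  have pL : IsProbabilityMeasure (mu u) := mu_prob hu
  have hVW : ∀ G : E n → ℝ, VW (W e w u) G = ∫ p, G (e p) ^ 2 ∂((mu w).prod (mu u)) -
      (∫ p, G (e p) ∂((mu w).prod (mu u))) ^ 2 := fun G => by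
    rw [VW, EW_W e hw hu, EW_W e hw hu]
  obtain ⟨T1, hT1⟩ : ∃ T1 : E a →ₗ[ℝ] E k, T1 = T ∘ₗ e.toLinearEquiv.toLinearMap ∘ₗ
    LinearMap.inl ℝ _ _ := ⟨_, rfl⟩
  obtain ⟨T2, hT2⟩ : ∃ T2 : E b →ₗ[ℝ] E k, T2 = T ∘ₗ e.toLinearEquiv.toLinearMap ∘ₗ
    LinearMap.inr ℝ _ _ := ⟨_, rfl⟩
  have hT12 : ∀ z : E a × E b, T (e z) = T1 z.1 + T2 z.2 := by
    intro z
    have h1 : z = LinearMap.inl ℝ _ _ z.1 + LinearMap.inr ℝ _ _ z.2 := by
      ext <;> simp
    have h2 : T (e z) = T (e (LinearMap.inl ℝ _ _ z.1 + LinearMap.inr ℝ _ _ z.2)) := by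
      rw [← h1]
    rw [h2, map_add, map_add, hT1, hT2]
    rfl
  have cT1 : Continuous T1 := T1.continuous_of_finiteDimensional
  have cT2 : Continuous T2 := T2.continuous_of_finiteDimensional
  have vle : ∀ θ : E k, ‖θ‖ = 1 →
      ((∫ x, ⟪T1 x, θ⟫_ℝ ^ 2 ∂(mu w)) - (∫ x, ⟪T1 x, θ⟫_ℝ ∂(mu w)) ^ 2) +
      ((∫ y, ⟪T2 y, θ⟫_ℝ ^ 2 ∂(mu u)) - (∫ y, ⟪T2 y, θ⟫_ℝ ∂(mu u)) ^ 2) ≤ s := by
    intro θ hθ
    have h1 := hT θ hθ
    rw [hVW] at h1
    simp only [hT12, inner_add_left] at h1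
    rw [var_sum (mu w) (mu u) (fun x => ⟪T1 x, θ⟫_ℝ) (fun y => ⟪T2 y, θ⟫_ℝ)
      (lin_int hw T1 θ).1 (lin_int hu T2 θ).1 (lin_int hw T1 θ).2 (lin_int hu T2 θ).2] at h1
    exact h1
  have v1 : ∀ θ : E k, 0 ≤
      ((∫ x, ⟪T1 x, θ⟫_ℝ ^ 2 ∂(mu w)) - (∫ x, ⟪T1 x, θ⟫_ℝ ∂(mu w)) ^ 2) := fun θ =>
    var_nn (mu w) (fun x => ⟪T1 x, θ⟫_ℝ) (lin_int hw T1 θ).1 (lin_int hw T1 θ).2
  have v2 : ∀ θ : E k, 0 ≤
      ((∫ y, ⟪T2 y, θ⟫_ℝ ^ 2 ∂(mu u)) - (∫ y, ⟪T2 y, θ⟫_ℝ ∂(mu u)) ^ 2) := fun θ =>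
    var_nn (mu u) (fun x => ⟪T2 x, θ⟫_ℝ) (lin_int hu T2 θ).1 (lin_int hu T2 θ).2
  have g1 : ∀ y : E k, VW w (fun p => v (y + T1 p)) ≤ δ := fun y =>
    fibc cw T1 y s hs (fun θ hθ => by
      rw [VWm hw]
      have h1 := vle θ hθ
      have h2 := v2 θ
      linarith) v hv hvb hd
  have g2 : ∀ y : E k, VW u (fun p => v (y + T2 p)) ≤ δ' := fun y =>
    fibc cu T2 y s hs (fun θ hθ => by
      rw [VWm hu]
      have h1 := vle θ hθ
      have h2 := v1 θ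
      linarith) v hv hvb hd
  rw [hVW]
  have cv : Continuous v := hv.continuous
  simp only [hT12]
  refine efron (mu w) (mu u) (fun z => v (T1 z.1 + T2 z.2)) ?_ (fun z => hvb _) ?_ ?_
  · exact (by fun_prop : Continuous fun z : E a × E b => v (T1 z.1 + T2 z.2)).measurable
  · intro y
    have h1 := g1 (T2 y)
    rw [VWm hw] at h1
    simpa only [add_comm (T2 y)] using h1
  · intro x
    have h1 := g2 (T1 x)
    rw [VWm hu] at h1
    exact h1

/-- W2: products -/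
theorem t_PRW : Pool.Agent.N483.KM.S_PRW := by
  intro κ δ δ' a b n e w u _ _ hw hu cw cu
  exact prw' κ δ δ' a b n e.toContinuousLinearEquiv w u ⟨hw.nonneg, hw.int, hw.pos, hw.meas⟩
    ⟨hu.nonneg, hu.int, hu.pos, hu.meas⟩ cw cu

/-! ### cubes -/

open Pool.Agent.N483.KM (qb)

theorem qb_compact (M : ℕ) : IsCompact (qb M) := by
  have h1 : IsCompact (univ.pi fun _ : Fin M => Icc (-(1 / 2) : ℝ) (1 / 2)) :=
    isCompact_univ_pi fun _ => isCompact_Icc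
  have h2 : qb M = (EuclideanSpace.equiv (Fin M) ℝ).symm ''
      (univ.pi fun _ : Fin M => Icc (-(1 / 2) : ℝ) (1 / 2)) := by
    ext y
    constructor
    · intro hy
      refine ⟨EuclideanSpace.equiv (Fin M) ℝ y, fun i _ => ?_, by simp⟩
      exact abs_le.1 (hy i)
    · rintro ⟨z, hz, rfl⟩ i
      exact abs_le.2 (hz i (mem_univ i))
  rw [h2]
  exact h1.image (EuclideanSpace.equiv (Fin M) ℝ).symm.continuous

theorem qb_conv (M : ℕ) : Convex ℝ (qb M) := by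
  intro x hx y hy s t hs ht hst i
  have h1 := hx i
  have h2 := hy i
  calc |(s • x + t • y) i| = |s * x i + t * y i| := by simp
    _ ≤ |s * x i| + |t * y i| := abs_add_le _ _
    _ = s * |x i| + t * |y i| := by rw [abs_mul, abs_mul, abs_of_nonneg hs, abs_of_nonneg ht]
    _ ≤ s * (1 / 2) + t * (1 / 2) := by
        exact add_le_add (mul_le_mul_of_nonneg_left h1 hs) (mul_le_mul_of_nonneg_left h2 ht)
    _ = 1 / 2 := by rw [← add_mul, hst, one_mul]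

theorem qb_ball (M : ℕ) : Metric.ball (0 : E M) (1 / 2) ⊆ qb M := by
  intro x hx i
  have h1 : ‖x‖ < 1 / 2 := by simpa using hx
  have h2 : ‖x i‖ ≤ ‖x‖ := PiLp.norm_apply_le x i
  rw [Real.norm_eq_abs] at h2
  linarith

theorem qb_pos (M : ℕ) : 0 < volume (qb M) :=
  lt_of_lt_of_le (Metric.measure_ball_pos volume _ (by norm_num)) (measure_mono (qb_ball M))

theorem adm_qb (M : ℕ) : Pool.Agent.R751.MB.Adm (Pool.Agent.R751.MB.ind (qb M)) where
  nonneg x := indicator_nonneg (fun _ _ => zero_le_one) x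
  int := by
    have h1 : (fun x : E M => (1 + ‖x‖ ^ 2) * Pool.Agent.R751.MB.ind (qb M) x) =
        (qb M).indicator fun x => 1 + ‖x‖ ^ 2 := by
      funext x
      unfold Pool.Agent.R751.MB.ind
      by_cases hx : x ∈ qb M
      · simp [hx]
      · simp [hx]
    rw [h1, integrable_indicator_iff (qb_compact M).measurableSet]
    exact ContinuousOn.integrableOn_compact (qb_compact M) (by fun_prop)
  pos := by
    unfold Pool.Agent.R751.MB.ind
    rw [integral_indicator (qb_compact M).measurableSet]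
    simp only [integral_const, smul_eq_mul, mul_one]
    rw [measureReal_restrict_apply MeasurableSet.univ, univ_inter]
    exact ENNReal.toReal_pos (qb_pos M).ne' (qb_compact M).measure_lt_top.ne
  meas := measurable_const.indicator (qb_compact M).measurableSet

theorem lc_qb (M : ℕ) : Pool.Agent.R751.MB.LCn (Pool.Agent.R751.MB.ind (qb M)) := by
  intro x y t h0 h1
  unfold Pool.Agent.R751.MB.ind
  have hnn : 0 ≤ (qb M).indicator (fun _ => (1 : ℝ)) ((1 - t) • x + t • y) :=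
    indicator_nonneg (fun _ _ => zero_le_one) _
  by_cases hx : x ∈ qb M
  · by_cases hy : y ∈ qb M
    · have hz : (1 - t) • x + t • y ∈ qb M :=
        qb_conv M hx hy (by linarith) h0.le (by ring)
      simp [hx, hy, hz]
    · rw [indicator_of_notMem hy, Real.zero_rpow h0.ne', mul_zero]
      exact hnn
  · rw [indicator_of_notMem hx, Real.zero_rpow (by linarith), zero_mul]
    exact hnn

theorem sym_qb (M : ℕ) (σ : Equiv.Perm (Fin M)) (x y : E M) (h : ∀ i, |y i| = |x (σ i)|) :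
    Pool.Agent.R751.MB.ind (qb M) y = Pool.Agent.R751.MB.ind (qb M) x := by
  have h1 : y ∈ qb M ↔ x ∈ qb M := by
    constructor
    · intro hy i
      have h2 := hy (σ.symm i)
      rw [h, σ.apply_symm_apply] at h2
      exact h2
    · intro hx i
      rw [h i]
      exact hx _
  unfold Pool.Agent.R751.MB.ind
  by_cases hx : x ∈ qb M
  · rw [indicator_of_mem hx, indicator_of_mem (h1.2 hx)]
  · rw [indicator_of_notMem hx, indicator_of_notMem fun hy => hx (h1.1 hy)]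

/-- W3: cubes -/
theorem t_CUBE : Pool.Agent.N483.KM.S_CUBE := by
  intro δ hδ
  obtain ⟨A, hA, H⟩ := Pool.Agent.R751.MB.pSYM
  obtain ⟨κ, hκ, K⟩ := Pool.Agent.R751.MB.apc A δ hA hδ
  refine ⟨κ, hκ, fun M => ?_⟩
  rcases Nat.eq_zero_or_pos M with h0 | h0
  · subst h0
    exact Pool.Agent.R754.KG.cc_zero hδ.le (qb 0) (qb_compact 0)
      ⟨0, interior_maximal (qb_ball 0) Metric.isOpen_ball (Metric.mem_ball_self (by norm_num))⟩
  · exact K M _ (H M _ h0 (adm_qb M) (lc_qb M) fun σ x y h => sym_qb M σ x y h)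

end Pool.Agent.N232.KM
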