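import Pool.Agent.N232.KM.Res3
import Pool.Agent.Y211.PV.Iso
import Pool.Agent.Y252.PV.M4
import Pool.Agent.Y625.PV.LevUm

/-!
# Residual variance and the maximal fibre (KM19)
-/

set_option autoImplicit false

namespace Pool.Agent.N232.KM

theorem t_RES : Pool.Agent.N483.KM.S_RES := by
  obtain ⟨K, hK, H⟩ := Pool.Agent.Y252.PV.M4.m4 Pool.Agent.Y625.PV.lev
  exact res_of K hK ⟨fun n w h0 hm hi hp => Pool.Agent.Y211.PV.iso n w ⟨h0, hi, hp, hm⟩,
    fun n w h0 hm hi hp hl => H n w ⟨h0, hi, hp, hm⟩ hl⟩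

end Pool.Agent.N232.KM
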