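import Pool.Agent.Y506.RG.Stm

/-!
# Isotropic position of log-concave weights
-/

set_option autoImplicit false

namespace Pool.Agent.N232.KM

open MeasureTheory Set Filter Topology
open scoped ENNReal InnerProductSpace
open Pool.Agent.W695.KH (Eu)
open Pool.Agent.Y506.RG (EW VW ILK)

variable {n : ℕ}

/-- determinant -/
noncomputable def dt (A : Eu (Fin n) ≃L[ℝ] Eu (Fin n)) : ℝ :=
  |LinearMap.det (A.toLinearEquiv : Eu (Fin n) →ₗ[ℝ] Eu (Fin n))|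

theorem dt_pos (A : Eu (Fin n) ≃L[ℝ] Eu (Fin n)) : 0 < dt A :=
  abs_pos.2 (LinearEquiv.isUnit_det' A.toLinearEquiv).ne_zero

/-- change of variables -/
theorem cov_lin (A : Eu (Fin n) ≃L[ℝ] Eu (Fin n)) (F : Eu (Fin n) → ℝ≥0∞) (hF : Measurable F) :
    ∫⁻ y, F y = ENNReal.ofReal (dt A) * ∫⁻ x, F (A x) := by
  have hd : LinearMap.det (A.toLinearEquiv : Eu (Fin n) →ₗ[ℝ] Eu (Fin n)) ≠ 0 :=
    (LinearEquiv.isUnit_det' A.toLinearEquiv).ne_zero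
  have h1 := Measure.map_linearMap_addHaar_eq_smul_addHaar
    (volume : Measure (Eu (Fin n))) hd
  have h2 : ∫⁻ x, F (A x) = ENNReal.ofReal ((dt A)⁻¹) * ∫⁻ y, F y := by
    have h3 : ∫⁻ x, F (A x) = ∫⁻ y, F y ∂(Measure.map (A.toLinearEquiv : Eu (Fin n) →ₗ[ℝ] Eu (Fin n))
        (volume : Measure (Eu (Fin n)))) := by
      rw [lintegral_map hF]
      · rfl
      · exact A.continuous.measurable
    rw [h3, h1, lintegral_smul_measure, smul_eq_mul]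
    unfold dt
    rw [abs_inv]
  rw [h2, ← mul_assoc, ← ENNReal.ofReal_mul (dt_pos A).le, mul_inv_cancel₀ (dt_pos A).ne',
    ENNReal.ofReal_one, one_mul]

/-- the density in the new position -/
noncomputable def gd (A : Eu (Fin n) ≃L[ℝ] Eu (Fin n)) (μ : Eu (Fin n)) (κ : ℝ)
    (w : Eu (Fin n) → ℝ) (y : Eu (Fin n)) : ℝ≥0∞ := ENNReal.ofReal (κ * w (A.symm (y + μ)))

theorem gd_meas (A : Eu (Fin n) ≃L[ℝ] Eu (Fin n)) (μ : Eu (Fin n)) (κ : ℝ)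
    (w : Eu (Fin n) → ℝ) (hm : Measurable w) : Measurable (gd A μ κ w) := by
  unfold gd
  refine ENNReal.measurable_ofReal.comp ((hm.comp ?_).const_mul κ)
  exact (A.symm.continuous.comp (by fun_prop)).measurable

theorem gd_int (A : Eu (Fin n) ≃L[ℝ] Eu (Fin n)) (μ : Eu (Fin n)) (κ : ℝ) (hκ : 0 < κ)
    (w : Eu (Fin n) → ℝ) (hm : Measurable w) (H : Eu (Fin n) → ℝ≥0∞) (hH : Measurable H) :
    ∫⁻ y, H y * gd A μ κ w y =
      ENNReal.ofReal (κ * dt A) * ∫⁻ x, H (A x - μ) * ENNReal.ofReal (w x) := by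
  have h1 : ∫⁻ y, H y * gd A μ κ w y = ∫⁻ y, H (y - μ) * gd A μ κ w (y - μ) := by
    rw [← lintegral_add_right_eq_self (fun y => H (y - μ) * gd A μ κ w (y - μ)) μ]
    simp
  have hs : Measurable fun y : Eu (Fin n) => y - μ := by fun_prop
  have hmeas : Measurable fun y => H (y - μ) * gd A μ κ w (y - μ) :=
    (hH.comp hs).mul ((gd_meas A μ κ w hm).comp hs)
  rw [h1, cov_lin A _ hmeas]
  have h2 : ∀ x, H (A x - μ) * gd A μ κ w (A x - μ) =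
      ENNReal.ofReal κ * (H (A x - μ) * ENNReal.ofReal (w x)) := by
    intro x
    unfold gd
    rw [sub_add_cancel, A.symm_apply_apply, ENNReal.ofReal_mul hκ.le]
    ring
  simp_rw [h2]
  have hmeas2 : Measurable fun x => H (A x - μ) * ENNReal.ofReal (w x) :=
    (hH.comp (hs.comp A.continuous.measurable)).mul (ENNReal.measurable_ofReal.comp hm)
  rw [lintegral_const_mul _ hmeas2,
    ← mul_assoc, ← ENNReal.ofReal_mul (dt_pos A).le, mul_comm (dt A) κ]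

/-- isotropic position -/
theorem ilk_of (K : ℝ) (w : Eu (Fin n) → ℝ) (h0 : ∀ x, 0 ≤ w x) (hm : Measurable w)
    (hi : Integrable (fun x => (1 + ‖x‖ ^ 2) * w x)) (hp : 0 < ∫ x, w x)
    (hl : ∀ x y, ∀ t : ℝ, 0 < t → t < 1 → w x ^ (1 - t) * w y ^ t ≤ w ((1 - t) • x + t • y))
    (h4 : ∀ θ : Eu (Fin n), Integrable (fun x => (⟪x, θ⟫_ℝ - EW w fun x => ⟪x, θ⟫_ℝ) ^ 4 * w x) ∧
      EW w (fun x => (⟪x, θ⟫_ℝ - EW w fun x => ⟪x, θ⟫_ℝ) ^ 4) ≤ K * (VW w fun x => ⟪x, θ⟫_ℝ) ^ 2)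
    (A : Eu (Fin n) ≃L[ℝ] Eu (Fin n)) (hA : ∀ θ, VW w (fun x => ⟪A x, θ⟫_ℝ) = ‖θ‖ ^ 2) :
    ∃ (μ : Eu (Fin n)) (κ : ℝ), 0 < κ ∧ κ * dt A * (∫ x, w x) = 1 ∧ ILK K (gd A μ κ w) := by
  set M := ∫ x, w x with hM
  -- integrability
  have hof : ∀ (v : Eu (Fin n) → ℝ) (_ : Measurable v) (B : ℝ) (_ : ∀ x, |v x| ≤ B * (1 + ‖x‖ ^ 2)),
      Integrable fun x => v x * w x := by
    intro v hv B hb
    refine Integrable.mono' (hi.const_mul B) (hv.mul hm).aestronglyMeasurable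
      (Eventually.of_forall fun x => ?_)
    rw [Real.norm_eq_abs, abs_mul, abs_of_nonneg (h0 x), ← mul_assoc]
    exact mul_le_mul_of_nonneg_right (hb x) (h0 x)
  have iw : Integrable w := by
    have := hof (fun _ => 1) measurable_const 1 fun x => by
      rw [abs_one, one_mul]; nlinarith [sq_nonneg ‖x‖]
    simpa using this
  have hAx : ∀ x, ‖A x‖ ≤ ‖(A : Eu (Fin n) →L[ℝ] Eu (Fin n))‖ * ‖x‖ := fun x =>
    (A : Eu (Fin n) →L[ℝ] Eu (Fin n)).le_opNorm x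
  set L := ‖(A : Eu (Fin n) →L[ℝ] Eu (Fin n))‖ with hL
  have hL0 : 0 ≤ L := norm_nonneg _
  have iv : Integrable fun x => w x • A x := by
    have hn := hof (fun x => L * ‖x‖) (by fun_prop) L fun x => by
      rw [abs_of_nonneg (by positivity)]
      exact mul_le_mul_of_nonneg_left (by nlinarith [sq_nonneg (‖x‖ - 1), sq_nonneg ‖x‖]) hL0
    refine hn.mono' (hm.smul A.continuous.measurable).aestronglyMeasurable
      (Eventually.of_forall fun x => ?_)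
    rw [norm_smul, Real.norm_eq_abs, abs_of_nonneg (h0 x), mul_comm]
    exact mul_le_mul_of_nonneg_right (hAx x) (h0 x)
  set μ : Eu (Fin n) := M⁻¹ • ∫ x, w x • A x with hμ
  have hEW : ∀ θ, EW w (fun x => ⟪A x, θ⟫_ℝ) = ⟪μ, θ⟫_ℝ := by
    intro θ
    unfold EW
    rw [hμ, real_inner_smul_left, real_inner_comm, ← integral_inner iv, ← hM, div_eq_inv_mul]
    congr 1
    refine integral_congr_ae (Eventually.of_forall fun x => ?_)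
    simp only [real_inner_smul_right, real_inner_comm (A x) θ]
    ring
  have hdt := dt_pos A
  set κ : ℝ := (M * dt A)⁻¹ with hκ
  have hκ0 : 0 < κ := by positivity
  have hκ1 : κ * dt A = M⁻¹ := by rw [hκ]; field_simp
  -- linear functionals
  have ilin : ∀ θ, Integrable fun x => ⟪θ, A x - μ⟫_ℝ * w x := by
    intro θ
    refine hof _ (by fun_prop) (‖θ‖ * (L + ‖μ‖)) fun x => ?_
    calc |⟪θ, A x - μ⟫_ℝ| ≤ ‖θ‖ * ‖A x - μ‖ := abs_real_inner_le_norm _ _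
      _ ≤ ‖θ‖ * (L * ‖x‖ + ‖μ‖) := by
          refine mul_le_mul_of_nonneg_left ((norm_sub_le _ _).trans ?_) (norm_nonneg _)
          exact add_le_add (hAx x) le_rfl
      _ ≤ ‖θ‖ * ((L + ‖μ‖) * (1 + ‖x‖ ^ 2)) := by
          refine mul_le_mul_of_nonneg_left ?_ (norm_nonneg _)
          have e1 : ‖x‖ ≤ 1 + ‖x‖ ^ 2 := by nlinarith [sq_nonneg (‖x‖ - 1), sq_nonneg ‖x‖]
          have e2 : L * ‖x‖ ≤ L * (1 + ‖x‖ ^ 2) := mul_le_mul_of_nonneg_left e1 hL0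
          have e3 : ‖μ‖ * 1 ≤ ‖μ‖ * (1 + ‖x‖ ^ 2) :=
            mul_le_mul_of_nonneg_left (by nlinarith [sq_nonneg ‖x‖]) (norm_nonneg _)
          nlinarith
      _ = _ := by ring
  have isq : ∀ θ, Integrable fun x => ⟪θ, A x - μ⟫_ℝ ^ 2 * w x := by
    intro θ
    refine hof _ (by fun_prop) (‖θ‖ ^ 2 * (2 * L ^ 2 + 2 * ‖μ‖ ^ 2)) fun x => ?_
    rw [abs_of_nonneg (sq_nonneg _)]
    have e0 : ⟪θ, A x - μ⟫_ℝ ^ 2 ≤ (‖θ‖ * ‖A x - μ‖) ^ 2 := by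
      rw [← sq_abs]
      exact pow_le_pow_left₀ (abs_nonneg _) (abs_real_inner_le_norm _ _) 2
    have e1 : ‖A x - μ‖ ≤ L * ‖x‖ + ‖μ‖ := (norm_sub_le _ _).trans (add_le_add (hAx x) le_rfl)
    have e2 : ‖A x - μ‖ ^ 2 ≤ (L * ‖x‖ + ‖μ‖) ^ 2 := pow_le_pow_left₀ (norm_nonneg _) e1 2
    have e3 : (L * ‖x‖ + ‖μ‖) ^ 2 ≤ (2 * L ^ 2 + 2 * ‖μ‖ ^ 2) * (1 + ‖x‖ ^ 2) := by
      nlinarith [sq_nonneg (L * ‖x‖ - ‖μ‖), sq_nonneg L, mul_nonneg (sq_nonneg ‖μ‖) (sq_nonneg ‖x‖)]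
    calc ⟪θ, A x - μ⟫_ℝ ^ 2 ≤ ‖θ‖ ^ 2 * ‖A x - μ‖ ^ 2 := by rw [← mul_pow]; exact e0
      _ ≤ ‖θ‖ ^ 2 * ((2 * L ^ 2 + 2 * ‖μ‖ ^ 2) * (1 + ‖x‖ ^ 2)) :=
          mul_le_mul_of_nonneg_left (e2.trans e3) (sq_nonneg _)
      _ = _ := by ring
  have iA : ∀ θ, Integrable fun x => ⟪A x, θ⟫_ℝ * w x := by
    intro θ
    have : (fun x => ⟪A x, θ⟫_ℝ * w x) = fun x => ⟪θ, A x - μ⟫_ℝ * w x + ⟪θ, μ⟫_ℝ * w x := by
      funext x
      rw [inner_sub_right, real_inner_comm (A x) θ]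
      ring
    rw [this]
    exact (ilin θ).add (iw.const_mul _)
  -- the mean
  have hmean : ∀ θ, ∫ x, ⟪θ, A x - μ⟫_ℝ * w x = 0 := by
    intro θ
    have e1 : (fun x => ⟪θ, A x - μ⟫_ℝ * w x) = fun x => ⟪A x, θ⟫_ℝ * w x - ⟪μ, θ⟫_ℝ * w x := by
      funext x
      rw [inner_sub_right, real_inner_comm (A x) θ, real_inner_comm μ θ]
      ring
    have e2 := hEW θ
    unfold EW at e2
    rw [← hM, div_eq_iff hp.ne'] at e2
    rw [e1, integral_sub (iA θ) (iw.const_mul _), e2, integral_const_mul, sub_self]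
  -- the variance
  have hvar : ∀ θ, ∫ x, ⟪θ, A x - μ⟫_ℝ ^ 2 * w x = M * ‖θ‖ ^ 2 := by
    intro θ
    have e1 : (fun x => ⟪A x, θ⟫_ℝ ^ 2 * w x) = fun x => ⟪θ, A x - μ⟫_ℝ ^ 2 * w x +
        (2 * ⟪μ, θ⟫_ℝ) * (⟪θ, A x - μ⟫_ℝ * w x) + ⟪μ, θ⟫_ℝ ^ 2 * w x := by
      funext x
      have : ⟪A x, θ⟫_ℝ = ⟪θ, A x - μ⟫_ℝ + ⟪μ, θ⟫_ℝ := by
        rw [inner_sub_right, real_inner_comm (A x) θ, real_inner_comm μ θ]; ring
      rw [this]; ring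
    have e2 : ∫ x, ⟪A x, θ⟫_ℝ ^ 2 * w x = (∫ x, ⟪θ, A x - μ⟫_ℝ ^ 2 * w x) + ⟪μ, θ⟫_ℝ ^ 2 * M := by
      have q1 : Integrable fun x => ⟪θ, A x - μ⟫_ℝ ^ 2 * w x +
        (2 * ⟪μ, θ⟫_ℝ) * (⟪θ, A x - μ⟫_ℝ * w x) := (isq θ).add ((ilin θ).const_mul _)
      rw [e1, integral_add q1 (iw.const_mul _), integral_add (isq θ) ((ilin θ).const_mul _),
        integral_const_mul, hmean θ, integral_const_mul]
      ring
    have e3 := hA θ
    unfold VW at e3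
    rw [hEW θ] at e3
    unfold EW at e3
    rw [e2, ← hM] at e3
    have e4 : ((∫ x, ⟪θ, A x - μ⟫_ℝ ^ 2 * w x) + ⟪μ, θ⟫_ℝ ^ 2 * M) / M =
        (∫ x, ⟪θ, A x - μ⟫_ℝ ^ 2 * w x) / M + ⟪μ, θ⟫_ℝ ^ 2 := by
      field_simp
    rw [e4, add_sub_cancel_right, div_eq_iff hp.ne'] at e3
    rw [e3]; ring
  -- fourth moments
  have h4' : ∀ θ, Integrable (fun x => ⟪θ, A x - μ⟫_ℝ ^ 4 * w x) ∧
      ∫ x, ⟪θ, A x - μ⟫_ℝ ^ 4 * w x ≤ M * (K * ‖θ‖ ^ 4) := by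
    intro θ
    obtain ⟨θ', hθ'⟩ : ∃ θ' : Eu (Fin n), θ' =
      ContinuousLinearMap.adjoint (A : Eu (Fin n) →L[ℝ] Eu (Fin n)) θ := ⟨_, rfl⟩
    have e0 : ∀ x, ⟪x, θ'⟫_ℝ = ⟪A x, θ⟫_ℝ := by
      intro x
      rw [hθ', ContinuousLinearMap.adjoint_inner_right]
      rfl
    have e1 : (fun x : Eu (Fin n) => ⟪x, θ'⟫_ℝ) = fun x => ⟪A x, θ⟫_ℝ := funext e0
    have e2 := h4 θ'
    rw [e1, hEW θ, hA θ] at e2
    have e3 : ∀ x, ⟪x, θ'⟫_ℝ - ⟪μ, θ⟫_ℝ = ⟪θ, A x - μ⟫_ℝ := by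
      intro x
      rw [e0, inner_sub_right, real_inner_comm (A x) θ, real_inner_comm μ θ]
    simp_rw [e3] at e2
    refine ⟨e2.1, ?_⟩
    have e4 := e2.2
    unfold EW at e4
    rw [← hM, div_le_iff₀ hp] at e4
    linarith [e4, show K * (‖θ‖ ^ 2) ^ 2 * M = M * (K * ‖θ‖ ^ 4) by ring]
  have hmul : ∀ (v : Eu (Fin n) → ℝ) (x : Eu (Fin n)),
      ENNReal.ofReal (v x) * ENNReal.ofReal (w x) = ENNReal.ofReal (v x * w x) := fun v x =>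
    (ENNReal.ofReal_mul' (h0 x)).symm
  refine ⟨μ, κ, hκ0, by rw [hκ1]; field_simp, ?_⟩
  refine ⟨gd_meas A μ κ w hm, ?_, ?_, ?_, ?_, ?_⟩
  · intro x y t h1 h2
    unfold gd
    have h3 := hl (A.symm (x + μ)) (A.symm (y + μ)) t h1 h2
    have e1 : A.symm ((1 - t) • x + t • y + μ) =
        (1 - t) • A.symm (x + μ) + t • A.symm (y + μ) := by
      rw [← map_smul, ← map_smul, ← map_add]
      congr 1
      module
    rw [e1]
    have a1 : 0 ≤ κ * w (A.symm (x + μ)) := mul_nonneg hκ0.le (h0 _)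
    have a2 : 0 ≤ κ * w (A.symm (y + μ)) := mul_nonneg hκ0.le (h0 _)
    rw [ENNReal.ofReal_rpow_of_nonneg a1 (by linarith), ENNReal.ofReal_rpow_of_nonneg a2 h1.le,
      ← ENNReal.ofReal_mul (Real.rpow_nonneg a1 _)]
    refine ENNReal.ofReal_le_ofReal ?_
    rw [Real.mul_rpow hκ0.le (h0 _), Real.mul_rpow hκ0.le (h0 _)]
    have e2 : κ ^ (1 - t) * κ ^ t = κ := by
      rw [← Real.rpow_add hκ0]; simp
    calc κ ^ (1 - t) * w (A.symm (x + μ)) ^ (1 - t) * (κ ^ t * w (A.symm (y + μ)) ^ t)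
        = κ ^ (1 - t) * κ ^ t * (w (A.symm (x + μ)) ^ (1 - t) * w (A.symm (y + μ)) ^ t) := by ring
      _ ≤ κ * w ((1 - t) • A.symm (x + μ) + t • A.symm (y + μ)) := by
          rw [e2]; exact mul_le_mul_of_nonneg_left h3 hκ0.le
  · have h := gd_int A μ κ hκ0 w hm (fun _ => 1) measurable_const
    simp only [one_mul] at h
    rw [h, ← ofReal_integral_eq_lintegral_ofReal iw (Eventually.of_forall h0), hκ1, ← hM,
      ← ENNReal.ofReal_mul (by positivity), inv_mul_cancel₀ hp.ne', ENNReal.ofReal_one]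
  · intro θ
    rw [gd_int A μ κ hκ0 w hm (fun z => ENNReal.ofReal ⟪θ, z⟫_ℝ) (by fun_prop),
      gd_int A μ κ hκ0 w hm (fun z => ENNReal.ofReal (-⟪θ, z⟫_ℝ)) (by fun_prop)]
    congr 1
    have h := integral_eq_lintegral_pos_part_sub_lintegral_neg_part (ilin θ)
    rw [hmean θ] at h
    have f1 : ∫⁻ x, ENNReal.ofReal (⟪θ, A x - μ⟫_ℝ * w x) ≠ ⊤ :=
      (ilin θ).lintegral_lt_top.ne
    have f2 : ∫⁻ x, ENNReal.ofReal (-(⟪θ, A x - μ⟫_ℝ * w x)) ≠ ⊤ :=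
      (ilin θ).neg.lintegral_lt_top.ne
    have h5 := sub_eq_zero.1 h.symm
    have h6 := (ENNReal.toReal_eq_toReal_iff' f1 f2).1 h5
    simp_rw [hmul (fun x => ⟪θ, A x - μ⟫_ℝ), hmul (fun x => -⟪θ, A x - μ⟫_ℝ)]
    rw [h6]
    refine lintegral_congr fun x => ?_
    congr 1
    ring
  · intro θ
    rw [gd_int A μ κ hκ0 w hm (fun z => ENNReal.ofReal (⟪θ, z⟫_ℝ ^ 2)) (by fun_prop)]
    simp_rw [hmul (fun x => ⟪θ, A x - μ⟫_ℝ ^ 2)]
    rw [← ofReal_integral_eq_lintegral_ofReal (isq θ)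
      (Eventually.of_forall fun x => mul_nonneg (sq_nonneg _) (h0 x)), hvar θ, hκ1,
      ← ENNReal.ofReal_mul (by positivity)]
    congr 1
    field_simp
  · intro θ
    rw [gd_int A μ κ hκ0 w hm (fun z => ENNReal.ofReal (⟪θ, z⟫_ℝ ^ 4)) (by fun_prop)]
    simp_rw [hmul (fun x => ⟪θ, A x - μ⟫_ℝ ^ 4)]
    rw [← ofReal_integral_eq_lintegral_ofReal (h4' θ).1
      (Eventually.of_forall fun x => mul_nonneg (by positivity) (h0 x)), hκ1,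
      ← ENNReal.ofReal_mul (by positivity)]
    refine ENNReal.ofReal_le_ofReal ?_
    calc M⁻¹ * ∫ x, ⟪θ, A x - μ⟫_ℝ ^ 4 * w x ≤ M⁻¹ * (M * (K * ‖θ‖ ^ 4)) :=
          mul_le_mul_of_nonneg_left (h4' θ).2 (by positivity)
      _ = K * ‖θ‖ ^ 4 := by field_simp

end Pool.Agent.N232.KM
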