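import Pool.Agent.N232.KM.Res1

/-!
# Densities in isotropic position: the integral along a line
-/

set_option autoImplicit false

namespace Pool.Agent.N232.KM

open MeasureTheory Set Filter Topology
open scoped ENNReal InnerProductSpace
open Pool.Agent.W695.KH (Eu)
open Pool.Agent.Y506.RG (EW VW ILK)

variable {n : ℕ}

/-- Chebyshev -/
theorem cheb (K : ℝ) (g : Eu (Fin n) → ℝ≥0∞) (hg : ILK K g) :
    ENNReal.ofReal (1 / 2) ≤ ∫⁻ y in Metric.closedBall 0 (Real.sqrt (2 * n + 2)), g y := by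
  obtain ⟨r, hr⟩ : ∃ r : ℝ, r = Real.sqrt (2 * n + 2) := ⟨_, rfl⟩
  rw [← hr]
  have hr2 : r ^ 2 = 2 * n + 2 := by rw [hr, Real.sq_sqrt (by positivity)]
  obtain ⟨B, hB⟩ : ∃ B : Set (Eu (Fin n)), B = Metric.closedBall 0 r := ⟨_, rfl⟩
  rw [← hB]
  have hBm : MeasurableSet B := by rw [hB]; exact measurableSet_closedBall
  have h2 : ∫⁻ y, ENNReal.ofReal (‖y‖ ^ 2) * g y = n := by
    have e1 : ∀ y : Eu (Fin n), ENNReal.ofReal (‖y‖ ^ 2) * g y =
        ∑ i : Fin n, ENNReal.ofReal (⟪EuclideanSpace.single i (1 : ℝ), y⟫_ℝ ^ 2) * g y := by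
      intro y
      rw [← Finset.sum_mul, ← ENNReal.ofReal_sum_of_nonneg fun i _ => sq_nonneg _,
        EuclideanSpace.norm_sq_eq]
      congr 2
      refine Finset.sum_congr rfl fun i _ => ?_
      rw [EuclideanSpace.inner_single_left]
      simp
    simp_rw [e1]
    rw [lintegral_finsetSum _ fun i _ => ?_]
    · simp_rw [hg.m2]
      simp
    · exact Measurable.mul (by fun_prop) hg.meas
  have h3 : ∫⁻ y in Bᶜ, g y ≤ ENNReal.ofReal (1 / 2) := by
    have e1 : ENNReal.ofReal (r ^ 2) * ∫⁻ y in Bᶜ, g y ≤ n := by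
      rw [← lintegral_const_mul _ hg.meas, ← h2]
      refine le_trans (setLIntegral_mono' hBm.compl fun y hy => ?_) (setLIntegral_le_lintegral Bᶜ _)
      refine mul_le_mul_left (ENNReal.ofReal_le_ofReal ?_) _
      rw [hB, mem_compl_iff, Metric.mem_closedBall, not_le, dist_zero_right] at hy
      exact pow_le_pow_left₀ (by rw [hr]; positivity) hy.le 2
    have e2 : (∫⁻ y in Bᶜ, g y) ≠ ⊤ :=
      ne_top_of_le_ne_top (by rw [hg.mass]; exact ENNReal.one_ne_top)
        (setLIntegral_le_lintegral Bᶜ g)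
    rw [← ENNReal.ofReal_toReal e2] at e1 ⊢
    refine ENNReal.ofReal_le_ofReal ?_
    rw [← ENNReal.ofReal_mul (by positivity), ← ENNReal.ofReal_natCast,
      ENNReal.ofReal_le_ofReal_iff (by positivity), hr2] at e1
    have e3 : 0 ≤ (∫⁻ y in Bᶜ, g y).toReal := ENNReal.toReal_nonneg
    have e4 : (0 : ℝ) ≤ n := Nat.cast_nonneg n
    by_contra hh
    rw [not_le] at hh
    nlinarith
  have h4 := lintegral_add_compl (μ := volume) g hBm
  rw [hg.mass] at h4
  by_contra hn
  rw [not_le] at hn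
  have h6 : (∫⁻ y in B, g y) + (∫⁻ y in Bᶜ, g y) < 1 := by
    calc (∫⁻ y in B, g y) + (∫⁻ y in Bᶜ, g y)
        < ENNReal.ofReal (1 / 2) + ENNReal.ofReal (1 / 2) :=
          ENNReal.add_lt_add_of_lt_of_le (ne_top_of_le_ne_top ENNReal.ofReal_ne_top h3) hn h3
      _ = 1 := by
          rw [← ENNReal.ofReal_add (by norm_num) (by norm_num)]
          norm_num
  exact absurd h4 h6.ne

/-- the integral over a ball is controlled by integrals along parallel lines -/
theorem line_bd (g : Eu (Fin n) → ℝ≥0∞) (hg : Measurable g) (u : Eu (Fin n)) (hu : ‖u‖ = 1)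
    (r : ℝ) (Φ : ℝ≥0∞) (hΦ : ∀ y, ∫⁻ s : ℝ, g (y + s • u) ≤ Φ) :
    ENNReal.ofReal r * ∫⁻ y in Metric.closedBall 0 r, g y ≤
      volume (Metric.closedBall (0 : Eu (Fin n)) (2 * r)) * Φ := by
  have hm1 : Measurable fun p : ℝ × Eu (Fin n) => g (p.2 + p.1 • u) :=
    hg.comp (by fun_prop)
  have h1 : ∀ s ∈ Icc (0 : ℝ) r, ∫⁻ y in Metric.closedBall 0 r, g y ≤
      ∫⁻ y in Metric.closedBall (0 : Eu (Fin n)) (2 * r), g (y + s • u) := by
    intro s hs
    rw [← lintegral_indicator measurableSet_closedBall, ← lintegral_indicator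
      measurableSet_closedBall, ← lintegral_add_right_eq_self
      (fun y => (Metric.closedBall (0 : Eu (Fin n)) r).indicator g y) (s • u)]
    refine lintegral_mono fun y => ?_
    by_cases hy : y + s • u ∈ Metric.closedBall (0 : Eu (Fin n)) r
    · have hy2 : y ∈ Metric.closedBall (0 : Eu (Fin n)) (2 * r) := by
        rw [Metric.mem_closedBall, dist_zero_right] at hy ⊢
        have e1 : ‖s • u‖ ≤ r := by
          rw [norm_smul, hu, mul_one, Real.norm_eq_abs, abs_of_nonneg hs.1]; exact hs.2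
        calc ‖y‖ = ‖(y + s • u) - s • u‖ := by rw [add_sub_cancel_right]
          _ ≤ ‖y + s • u‖ + ‖s • u‖ := norm_sub_le _ _
          _ ≤ 2 * r := by linarith
      rw [indicator_of_mem hy, indicator_of_mem hy2]
    · rw [indicator_of_notMem hy]
      exact zero_le
  calc ENNReal.ofReal r * ∫⁻ y in Metric.closedBall 0 r, g y
      = ∫⁻ _ in Icc (0 : ℝ) r, ∫⁻ y in Metric.closedBall 0 r, g y := by
        rw [setLIntegral_const, Real.volume_Icc, sub_zero, mul_comm]
    _ ≤ ∫⁻ s in Icc (0 : ℝ) r, ∫⁻ y in Metric.closedBall (0 : Eu (Fin n)) (2 * r), g (y + s • u) :=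
        setLIntegral_mono' measurableSet_Icc h1
    _ = ∫⁻ y in Metric.closedBall (0 : Eu (Fin n)) (2 * r), ∫⁻ s in Icc (0 : ℝ) r, g (y + s • u) :=
        lintegral_lintegral_swap hm1.aemeasurable
    _ ≤ ∫⁻ _ in Metric.closedBall (0 : Eu (Fin n)) (2 * r), Φ :=
        lintegral_mono fun y => (setLIntegral_le_lintegral _ _).trans (hΦ y)
    _ = _ := by rw [setLIntegral_const, mul_comm]

end Pool.Agent.N232.KM
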